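import Pool.Agent.H268R3.BE.Final

/-! Triple systems with a free commutative group of automorphisms. -/

set_option autoImplicit false

open Finset

namespace Pool.Agent.Results.MP_c82047_co.GroupInvariant

/-- `H` is a set of triples in `V`; the commutative group `A` acts on `V` by automorphisms of `H`
and only the identity fixes a vertex. First part: if every set `S` of at most `K` vertices spans at
most `|S|` triples, then every vertex has degree at most `(2 R + 7) (n / |A|) d` whenever
`n < d ^ R |A|`. Second part: if `|A| ≥ n ^ ε`, then `n ^ (2 - ε / 2)` triples give, for every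
`k ≥ K`, some `k` vertices spanning at least `k + ⌊k / K⌋` triples. -/
theorem result :
    (∀ R : ℕ, 1 ≤ R → ∃ K : ℕ, ∀ (V A : Type) [Fintype V] [DecidableEq V]
      [CommGroup A] [Fintype A] [MulAction A V] (H : Finset (Finset V)),
      (∀ (a : A) (x : V), a • x = x → a = 1) → (∀ e ∈ H, e.card = 3) →
      (∀ (a : A), ∀ e ∈ H, e.image (fun x => a • x) ∈ H) →
      (∀ S : Finset V, S.card ≤ K → #{e ∈ H | e ⊆ S} ≤ S.card) →
      ∀ d : ℕ, Fintype.card V < d ^ R * Fintype.card A → ∀ b : V,
        #{e ∈ H | b ∈ e} * Fintype.card A ≤ (2 * R + 7) * Fintype.card V * d) ∧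
    (∀ ε : ℝ, 0 < ε → ∃ K : ℕ, 1 ≤ K ∧ ∀ k : ℕ, K ≤ k → ∃ n₀ : ℕ,
      ∀ (V A : Type) [Fintype V] [DecidableEq V] [CommGroup A] [Fintype A] [MulAction A V]
      (H : Finset (Finset V)),
      n₀ ≤ Fintype.card V → (Fintype.card V : ℝ) ^ ε ≤ Fintype.card A →
      (∀ (a : A) (x : V), a • x = x → a = 1) → (∀ e ∈ H, e.card = 3) →
      (∀ (a : A), ∀ e ∈ H, e.image (fun x => a • x) ∈ H) →
      (Fintype.card V : ℝ) ^ (2 - ε / 2) ≤ H.card →
      ∃ S : Finset V, S.card = k ∧ k + k / K ≤ #{e ∈ H | e ⊆ S}) := by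
  constructor
  · intro R hR
    obtain ⟨K, -, hK⟩ := Pool.Agent.H268R3.BE.local_bound 3 le_rfl R hR
    refine ⟨K, ?_⟩
    intro V A _ _ _ _ _ H hfree hunif hinv hS d hd b
    refine hK V A H hfree hunif hinv ?_ d hd b
    intro E hE hEne hEK
    by_contra hcon
    push Not at hcon
    have h1 : (E.biUnion id).card < E.card := by omega
    have h2 := hS (E.biUnion id) (by omega)
    have h3 : E ⊆ {e ∈ H | e ⊆ E.biUnion id} := by
      intro e he
      rw [mem_filter]
      exact ⟨hE he, subset_biUnion_of_mem id he⟩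
    have h4 := card_le_card h3
    omega
  · intro ε hε
    obtain ⟨K, hK1, hK⟩ := Pool.Agent.H268R3.BE.global_bound 3 le_rfl ε hε
    refine ⟨K, hK1, ?_⟩
    intro k hk
    obtain ⟨n₀, hn₀⟩ := hK (k + k / K) (le_trans hk (Nat.le_add_right _ _))
    refine ⟨max n₀ k, ?_⟩
    intro V A _ _ _ _ _ H hn hA hfree hunif hinv hH
    obtain ⟨E, hE, hEc, hEu⟩ := hn₀ V A H (le_trans (le_max_left _ _) hn) hA hfree hunif hinv hH
    have h1 : (E.biUnion id).card ≤ k := by
      have e1 : (3 - 2) * (k + k / K) = k + k / K := by omega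
      rw [e1] at hEu
      have h2 : k / K * K ≤ k := Nat.div_mul_le_self k K
      by_contra hcon
      push Not at hcon
      have h3 : K * (k + 1) ≤ K * (E.biUnion id).card := Nat.mul_le_mul_left _ hcon
      have h4 : K * (k + k / K) = K * k + k / K * K := by ring
      rw [h4] at hEu
      have h5 : K * (k + 1) = K * k + K := by ring
      generalize k / K = c at *
      omega
    obtain ⟨S, hS1, hS2⟩ := exists_superset_card_eq h1 (le_trans (le_max_right _ _) hn)
    refine ⟨S, hS2, ?_⟩
    rw [← hEc]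
    apply card_le_card
    intro e he
    rw [mem_filter]
    exact ⟨hE he, (subset_biUnion_of_mem id he).trans hS1⟩

end Pool.Agent.Results.MP_c82047_co.GroupInvariant
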