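import Pool.Agent.H607R2.BW.CORE
import Pool.Agent.H607R2.BW.GRID
import Pool.Agent.H607R2.BW.ORD
import Pool.Agent.H607R2.BW.EDG
import Pool.Agent.H607R2.BW.BES3
import Pool.Agent.H607R2.BW.ASY2
import Pool.Agent.H607R2.BW.RBES3

/-!
# Triple systems of small width
-/

namespace Pool.Agent.Results.MP_c82047_co.SmallWidth

open Pool.Agent.H607R2.BW

theorem result :
  open Classical in
  (∀ (m w k a : ℕ) (E : Finset (Finset (Str m))), (∀ s ∈ E, s.card = 3) → HyperWidth 3 w E →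
    1334 ≤ k → 6 * k ≤ 8 ^ a → (∀ T ⊆ E, T.card = k → k + 3 < (T.biUnion id).card) →
    6 * E.card ≤ 2 ^ m * (w * (1 + 4 * w * m) ^ (3 * a - 1))) ∧
  (∀ (k a : ℕ) (c ε : ℝ), 1334 ≤ k → 6 * k ≤ 8 ^ a → 0 ≤ c → 3 * a * c < ε →
    ∃ m₀ : ℕ, ∀ (m w : ℕ) (E : Finset (Finset (Str m))), m₀ ≤ m → (w : ℝ) ≤ ((2 : ℝ) ^ m) ^ c →
      (∀ s ∈ E, s.card = 3) → HyperWidth 3 w E →
      (∀ T ⊆ E, T.card = k → k + 3 < (T.biUnion id).card) →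
      (E.card : ℝ) ≤ ((2 : ℝ) ^ m) ^ (1 + ε)) := by
  exact t_RBES3 (t_BES3 (t_GRID t_CORE) t_EDG t_ORD) t_ASY2

end Pool.Agent.Results.MP_c82047_co.SmallWidth
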