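import Pool.Agent.H155R2.BESR.Final

namespace Pool.Agent.Results.MP_c82047_co.TwoColourWindow

open Pool.Agent.H155R2.BESR

/-- Let `m ≥ 4` and let `H` be a linear 3-graph on `n ≥ 45 m³` vertices with at least
`(1 - 1/(8m²+4)) n²/6` edges (for instance a Steiner triple system on `n` points).
For every 2-colouring `H = C ∪ (H \ C)` of its edges there is a set `S` of edges of one
colour with `m ≤ |S| ≤ 2m` spanning at most `|S| + 3` vertices. -/
theorem result : ∀ m : ℕ, 4 ≤ m →
    ∀ (V : Type) [Fintype V] [DecidableEq V] (H : Finset (Finset V)),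
      (∀ L ∈ H, L.card = 3) →
      (∀ L ∈ H, ∀ M ∈ H, L ≠ M → (L ∩ M).card ≤ 1) →
      45 * m ^ 3 ≤ Fintype.card V →
      (8 * (m : ℤ) ^ 2 + 4) * ((Fintype.card V : ℤ) ^ 2 - 6 * H.card) ≤
        (Fintype.card V : ℤ) ^ 2 →
      ∀ C : Finset (Finset V), C ⊆ H →
        ∃ S : Finset (Finset V), (S ⊆ C ∨ S ⊆ H \ C) ∧ m ≤ S.card ∧ S.card ≤ 2 * m ∧
          (S.biUnion id).card ≤ S.card + 3 := by
  intro m hm V _ _ H three lin hn hden C hC
  exact window hm three lin hn hden hC

end Pool.Agent.Results.MP_c82047_co.TwoColourWindow
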